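import Pool.Agent.Helper791_Cyc.Main

/-!
# MP_d6e065_nt, Q1: `N_{m_k} = 2k - 1` fails for all large `k`

`m_k` is the product of the `k` smallest odd primes and `N_n` the number of real roots of the
derivative of the `n`-th cyclotomic polynomial, counted with multiplicity. The derivative of the
cyclotomic polynomial of index `m_k` has more than `2k - 1` real roots for every large `k`.
-/

set_option autoImplicit false

namespace Pool.Agent.Results.MP_d6e065_nt.FailsForLargeK

open Polynomial

/-- `m k` is the product of the `k` smallest odd primes: `m 1 = 3`, `m 2 = 15`, `m 3 = 105`, ...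
(`Nat.nth Nat.Prime i` is the `i`-th prime, `Nat.nth Nat.Prime 0 = 2`). -/
noncomputable def m (k : ℕ) : ℕ := ∏ i ∈ Finset.range k, Nat.nth Nat.Prime (i + 1)

/-- `N n` is the number of the real roots, counted with multiplicity, of the derivative of the
`n`-th cyclotomic polynomial. -/
noncomputable def N (n : ℕ) : ℕ := Multiset.card (derivative (cyclotomic n ℝ)).roots

/-- For every large `k` the derivative of the cyclotomic polynomial of index `m k` has more than
`2 k - 1` real roots. -/
theorem result : ∃ K : ℕ, 1 ≤ K ∧ ∀ k ≥ K, 2 * k - 1 < N (m k) := by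
  obtain ⟨K, hK⟩ := Pool.Agent.Helper791.Cyc.main
  exact ⟨K + 1, by omega, fun k hk => hK k (by omega)⟩

end Pool.Agent.Results.MP_d6e065_nt.FailsForLargeK
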